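import Pool.Agent.H57.IdC

set_option autoImplicit false

namespace Pool.Agent.Results.MP_9f71a8_co.SingularStrongLimit

open Set Cardinal

/-- Every partial order without an antichain of cardinality `μ` is covered by fewer than `l`
ideals. -/
def Covers (μ l : Cardinal.{0}) : Prop :=
  ∀ (P : Type) [PartialOrder P], (∀ A : Set P, IsAntichain (· ≤ ·) A → #A ≠ μ) →
    ∃ 𝓘 : Set (Set P), #𝓘 < l ∧ (∀ I ∈ 𝓘, IsLowerSet I ∧ DirectedOn (· ≤ ·) I) ∧
      ⋃₀ 𝓘 = Set.univ

theorem result (μ : Cardinal.{0}) (h1 : μ.IsStrongLimit) (h2 : μ.IsSingular) :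
    IsLeast {l | Covers μ l} μ := by
  constructor
  · intro P _ hP
    have R := H82.LadA.reg_toType (isRegular_cof (isSuccLimit_ord h1.aleph0_le))
    obtain ⟨s, s1, s2⟩ := Order.exists_cof_eq μ.ord.ToType
    obtain ⟨e⟩ := Cardinal.eq.1 (R.card.trans ((Ordinal.cof_toType _).symm.trans s2.symm))
    let lam : μ.ord.cof.ord.ToType → Cardinal := fun i => max μ.ord.cof (⨆ j : Iic i, #(Iio (e j).1))
    have l1 : ∀ i, lam i < μ := fun i => max_lt h2.cof_ord_lt
      (iSup_lt_of_lt_cof_ord (R.iic i) fun j => by simpa using mk_Iio_lt (e j).1)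
    obtain ⟨i, I, k1, k2, k3⟩ := H57.IdC.canon (P := P) (μ := μ) (lam := lam) R
      (fun i j h => max_le_max le_rfl (ciSup_le' fun k =>
        le_ciSup (f := fun j : Iic j => #(Iio (e j).1)) (bddAbove_range _) ⟨k, k.2.trans h⟩))
      (fun _ => le_max_left _ _) (fun ν hν => by
        obtain ⟨x, hx⟩ : ∃ x : μ.ord.ToType, ν ≤ #(Iio x) :=
          by
            obtain ⟨x, hx⟩ := Ordinal.typein_surj (α := μ.ord.ToType) (· < ·) (o := ν.ord)
              (by simpa using hν)
            exact ⟨x, ((card_ord ν).symm.trans (congrArg Ordinal.card hx).symm).le⟩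
        obtain ⟨y, hy, h⟩ := s1 x
        refine ⟨e.symm ⟨y, hy⟩, le_max_of_le_right (le_ciSup_of_le (bddAbove_range _)
          ⟨_, self_mem_Iic⟩ ?_)⟩
        simpa using hx.trans (mk_le_mk_of_subset (Iio_subset_Iio h))) h1.isSuccLimit
      fun A hA => lt_of_not_ge fun h => by
        obtain ⟨B, k1, k2⟩ := le_mk_iff_exists_subset.1 h
        exact hP B (hA.subset k1) k2
    exact ⟨I, k1.trans_lt (h1.two_power_lt (h1.two_power_lt (l1 i))), k2, univ_subset_iff.1 k3⟩
  · intro l hl
    by_contra! h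
    letI : PartialOrder l.out :=
      { le := Eq, le_refl := fun _ => rfl, le_trans := fun _ _ _ => Eq.trans,
        le_antisymm := fun _ _ h _ => h }
    obtain ⟨I, k1, k2, k3⟩ := hl l.out fun A _ => (((mk_set_le A).trans_eq (mk_out l)).trans_lt h).ne
    choose f f1 f2 using fun x => k3.symm.subset (mem_univ x)
    refine k1.not_ge ((mk_out l).symm.trans_le (mk_le_of_injective
      (f := fun x => (⟨f x, f1 x⟩ : I)) fun x y e => ?_))
    obtain ⟨z, -, e1, e2⟩ := (k2 _ (f1 y)).2 x ((show f x = f y from congrArg Subtype.val e) ▸ f2 x) y (f2 y)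
    exact Eq.trans e1 (Eq.symm e2)

end Pool.Agent.Results.MP_9f71a8_co.SingularStrongLimit
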